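import Pool.Agent.Helper97.Ku.GoalsG

/-! Packet PI: closure properties of `Π¹₁`. -/

namespace Pool.Agent.Helper97.Ku.PkPI

universe u w

section

variable {Ω : Type u} [LinearOrder Ω] {L : Type w} [CompleteBooleanAlgebra L]

/-- the basic neighbourhood -/
def NB (α : Ω) (h : FN Ω L) (e : ℕ → FN Ω L) (h' : FN Ω L) (e' : ℕ → FN Ω L) : L :=
  FN.eqv α h h' ⊓ ⨅ k, FN.eqv α (e k) (e' k)

theorem openJ_iff (B : FN Ω L → (ℕ → FN Ω L) → L) :
    OpenJ B ↔ ∀ h e, B h e ≤ ⨆ α, ⨅ h', ⨅ e' : ℕ → FN Ω L, (NB α h e h' e' ⇨ B h' e') := Iff.rfl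

theorem eqv_anti {α β : Ω} (hab : α ≤ β) (x y : FN Ω L) : FN.eqv β x y ≤ FN.eqv α x y := by
  unfold FN.eqv
  exact le_iInf fun i => le_iInf fun hi => iInf_le_of_le i (iInf_le_of_le (hi.trans_le hab) le_rfl)

theorem NB_anti {α β : Ω} (hab : α ≤ β) (h : FN Ω L) (e : ℕ → FN Ω L) (h' : FN Ω L)
    (e' : ℕ → FN Ω L) : NB β h e h' e' ≤ NB α h e h' e' :=
  inf_le_inf (eqv_anti hab _ _) (iInf_mono fun _ => eqv_anti hab _ _)

theorem OpenJ.inf {B C : FN Ω L → (ℕ → FN Ω L) → L} (hB : OpenJ B) (hC : OpenJ C) :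
    OpenJ (fun h e => B h e ⊓ C h e) := by
  intro h e
  refine (inf_le_inf (hB h e) (hC h e)).trans ?_
  rw [iSup_inf_iSup]
  apply iSup_le
  rintro ⟨α, β⟩
  refine le_trans ?_ (le_iSup _ (max α β))
  refine le_iInf fun h' => le_iInf fun e' => ?_
  rw [le_himp_iff]
  refine le_inf ?_ ?_
  · refine (inf_le_inf (inf_le_left.trans ((iInf_le _ h').trans (iInf_le _ e')))
      (NB_anti (le_max_left α β) h e h' e')).trans himp_inf_le
  · refine (inf_le_inf (inf_le_right.trans ((iInf_le _ h').trans (iInf_le _ e')))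
      (NB_anti (le_max_right α β) h e h' e')).trans himp_inf_le

theorem OpenJ.iSup {ι : Sort*} {B : ι → FN Ω L → (ℕ → FN Ω L) → L} (hB : ∀ i, OpenJ (B i)) :
    OpenJ (fun h e => ⨆ i, B i h e) := by
  intro h e
  apply iSup_le
  intro i
  refine (hB i h e).trans ?_
  exact iSup_mono fun α => iInf_mono fun h' => iInf_mono fun e' =>
    himp_le_himp_left (le_iSup (fun i => B i h' e') i)

theorem OpenJ.sup {B C : FN Ω L → (ℕ → FN Ω L) → L} (hB : OpenJ B) (hC : OpenJ C) :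
    OpenJ (fun h e => B h e ⊔ C h e) := by
  have h1 : (fun h e => B h e ⊔ C h e) = fun h e => ⨆ b : Bool, (if b then B else C) h e := by
    funext h e
    rw [iSup_bool_eq]
    rfl
  rw [h1]
  apply OpenJ.iSup
  intro b
  cases b
  · exact hC
  · exact hB

theorem OpenJ.subst {B : FN Ω L → (ℕ → FN Ω L) → L} (hB : OpenJ B)
    (s : FN Ω L → (ℕ → FN Ω L) → FN Ω L) (t : FN Ω L → (ℕ → FN Ω L) → (ℕ → FN Ω L))
    (hst : ∀ α, ∃ β, ∀ h e h' e', NB β h e h' e' ≤ NB α (s h e) (t h e) (s h' e') (t h' e')) :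
    OpenJ (fun h e => B (s h e) (t h e)) := by
  intro h e
  refine (hB (s h e) (t h e)).trans ?_
  apply iSup_le
  intro α
  obtain ⟨β, hβ⟩ := hst α
  refine le_trans ?_ (le_iSup _ β)
  refine le_iInf fun h' => le_iInf fun e' => ?_
  refine (iInf_le _ (s h' e')).trans ((iInf_le _ (t h' e')).trans ?_)
  exact himp_le_himp_right (hβ h e h' e')

theorem eqv_dec (G : Grd Ω) (i α β : Ω) (hβ : ∀ j, j < α → G.pi (i, j) < β) (h h' : FN Ω L) :
    FN.eqv β h h' ≤ FN.eqv α (dec G i h) (dec G i h') := by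
  unfold FN.eqv
  refine le_iInf fun j => le_iInf fun hj => ?_
  exact iInf_le_of_le (G.pi (i, j)) (iInf_le_of_le (hβ j hj) le_rfl)

theorem OpenJ.dec {B : FN Ω L → (ℕ → FN Ω L) → L} (G : Grd Ω) (i : Ω) (hB : OpenJ B) :
    OpenJ (fun h e => B (Ku.dec G i h) e) := by
  apply OpenJ.subst hB (fun h _ => Ku.dec G i h) (fun _ e => e)
  intro α
  obtain ⟨β, hβ⟩ := G.bd i α
  refine ⟨max α β, fun h e h' e' => ?_⟩
  refine inf_le_inf ?_ (iInf_mono fun k => eqv_anti (le_max_left _ _) _ _)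
  exact (eqv_anti (le_max_right _ _) _ _).trans (eqv_dec G i α β hβ h h')

theorem OpenJ.upd {B : FN Ω L → (ℕ → FN Ω L) → L} (G : Grd Ω) (i j : Ω) (k : ℕ) (hB : OpenJ B) :
    OpenJ (fun h e => B (Ku.dec G i h) (Function.update e k (Ku.dec G j h))) := by
  apply OpenJ.subst hB (fun h _ => Ku.dec G i h)
    (fun h e => Function.update e k (Ku.dec G j h))
  intro α
  obtain ⟨β, hβ⟩ := G.bd i α
  obtain ⟨γ, hγ⟩ := G.bd j α
  refine ⟨max α (max β γ), fun h e h' e' => ?_⟩
  refine le_inf ?_ (le_iInf fun l => ?_)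
  · refine inf_le_left.trans ((eqv_anti ?_ _ _).trans (eqv_dec G i α β hβ h h'))
    exact (le_max_left _ _).trans (le_max_right _ _)
  · by_cases hl : l = k
    · subst hl
      rw [Function.update_self, Function.update_self]
      refine inf_le_left.trans ((eqv_anti ?_ _ _).trans (eqv_dec G j α γ hγ h h'))
      exact (le_max_right _ _).trans (le_max_right _ _)
    · rw [Function.update_of_ne hl, Function.update_of_ne hl]
      exact inf_le_right.trans ((iInf_le _ l).trans (eqv_anti (le_max_left _ _) _ _))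

theorem OpenJ.atom (m α : Ω) (hm : m < α) (i : Ω) :
    OpenJ (fun (h : FN Ω L) (_ : ℕ → FN Ω L) => h.v m i) := by
  intro h e
  refine le_trans ?_ (le_iSup _ α)
  refine le_iInf fun h' => le_iInf fun e' => ?_
  rw [le_himp_iff]
  have h1 : FN.eqv α h h' ≤ h.eqAt h' m := iInf_le_of_le m (iInf_le_of_le hm le_rfl)
  refine (inf_le_inf le_rfl (inf_le_left.trans h1)).trans ?_
  unfold FN.eqAt
  rw [inf_iSup_eq]
  apply iSup_le
  intro j
  by_cases hj : i = j
  · subst hj
    exact inf_le_right.trans inf_le_right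
  · rw [← inf_assoc, h.fn m i j hj, bot_inf_eq]
    exact bot_le

theorem dec_cod (G : Grd Ω) (i : Ω) (H : Ω → FN Ω L) : Ku.dec G i (cod G H) = H i := by
  have h1 : (Ku.dec G i (cod G H)).v = (H i).v := by
    funext j k
    show (H (G.pi.symm (G.pi (i, j))).1).v (G.pi.symm (G.pi (i, j))).2 k = _
    rw [Equiv.symm_apply_apply]
  cases h2 : Ku.dec G i (cod G H)
  cases h3 : H i
  rw [h2, h3] at h1
  cases h1
  rfl

/-- the constant function -/
def cst (i : Ω) : FN Ω L where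
  v _ j := bo (j = i)
  tot _ := by
    rw [eq_top_iff]
    refine le_trans ?_ (le_iSup (fun j => (bo (j = i) : L)) i)
    simp [bo]
  fn _ j k h := by
    by_cases hj : j = i
    · have hk : ¬ k = i := fun hk => h (hj.trans hk.symm)
      simp [bo, hk]
    · simp [bo, hj]

open Classical in
/-- two coded functions -/
noncomputable def cod2 (G : Grd Ω) (x y : FN Ω L) : FN Ω L := cod G (fun m => if m = G.c0 then x else y)

theorem dec_cod2_0 (G : Grd Ω) (x y : FN Ω L) : Ku.dec G G.c0 (cod2 G x y) = x := by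
  unfold cod2
  rw [dec_cod, if_pos rfl]

theorem c0_lt_c1 (G : Grd Ω) : G.c0 < G.c1 := (G.lt_c1 G.c0).2 rfl

theorem dec_cod2_1 (G : Grd Ω) (x y : FN Ω L) : Ku.dec G G.c1 (cod2 G x y) = y := by
  unfold cod2
  rw [dec_cod, if_neg (c0_lt_c1 G).ne']

end

theorem pi : G_PI.{u, w} := by
  intro Ω _ L _ G
  refine ⟨?_, ?_, ?_, ?_⟩
  · rintro A B ⟨B1, hB1, hA⟩ ⟨B2, hB2, hB⟩
    refine ⟨fun h e => B1 h e ⊓ B2 h e, OpenJ.inf hB1 hB2, fun e => ?_⟩
    beta_reduce
    rw [hA, hB, iInf_inf_eq]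
  · rintro A B ⟨B1, hB1, hA⟩ ⟨B2, hB2, hB⟩
    refine ⟨fun h e => B1 (dec G G.c0 h) e ⊔ B2 (dec G G.c1 h) e,
      OpenJ.sup (OpenJ.dec G G.c0 hB1) (OpenJ.dec G G.c1 hB2), fun e => ?_⟩
    beta_reduce
    rw [hA, hB]
    apply le_antisymm
    · refine le_iInf fun h => ?_
      exact sup_le_sup (iInf_le _ _) (iInf_le _ _)
    · rw [iInf_sup_eq]
      refine le_iInf fun h1 => ?_
      rw [sup_iInf_eq]
      refine le_iInf fun h2 => ?_
      refine (iInf_le _ (cod2 G h1 h2)).trans ?_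
      rw [dec_cod2_0, dec_cod2_1]
  · intro A hA
    choose B hB hAB using hA
    obtain ⟨β, hβ⟩ := G.bd G.c0 G.c1
    refine ⟨fun h e => ⨆ i, (h.v (G.pi (G.c0, G.c0)) i ⊓ B i (dec G G.c1 h) e),
      OpenJ.iSup fun i => OpenJ.inf (OpenJ.atom _ β (hβ _ (c0_lt_c1 G)) i)
        (OpenJ.dec G G.c1 (hB i)), fun e => ?_⟩
    beta_reduce
    apply le_antisymm
    · refine le_iInf fun h => ?_
      have h1 : (⨅ i, A i e) = (⨅ i, A i e) ⊓ ⨆ i, h.v (G.pi (G.c0, G.c0)) i := by
        rw [h.tot, inf_top_eq]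
      rw [h1, inf_iSup_eq]
      refine iSup_mono fun i => ?_
      rw [inf_comm]
      refine inf_le_inf le_rfl ((iInf_le _ i).trans ?_)
      rw [hAB]
      exact iInf_le _ _
    · refine le_iInf fun i => ?_
      rw [hAB]
      refine le_iInf fun h' => ?_
      refine (iInf_le _ (cod2 G (cst i) h')).trans ?_
      apply iSup_le
      intro j
      rw [dec_cod2_1]
      have h1 : (cod2 G (cst i) h').v (G.pi (G.c0, G.c0)) j = (bo (j = i) : L) := by
        have h2 : (dec G G.c0 (cod2 G (cst i) h')).v G.c0 j = (bo (j = i) : L) := by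
          rw [dec_cod2_0]
          rfl
        exact h2
      rw [h1]
      by_cases hj : j = i
      · subst hj
        exact inf_le_right
      · simp [bo, hj]
  · rintro A k ⟨B, hB, hA⟩
    refine ⟨fun h e => B (dec G G.c0 h) (Function.update e k (dec G G.c1 h)),
      OpenJ.upd G G.c0 G.c1 k hB, fun e => ?_⟩
    beta_reduce
    apply le_antisymm
    · refine le_iInf fun h => (iInf_le _ (dec G G.c1 h)).trans ?_
      rw [hA]
      exact iInf_le _ _
    · refine le_iInf fun x => ?_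
      rw [hA]
      refine le_iInf fun h => ?_
      refine (iInf_le _ (cod2 G h x)).trans ?_
      rw [dec_cod2_0, dec_cod2_1]

end Pool.Agent.Helper97.Ku.PkPI
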