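import Pool.Agent.Helper97.Ku.GoalsC

/-! Packet SIG: σ-closure, and σ-closure excluding one branch. -/

namespace Pool.Agent.Helper97.Ku.PkSIG

open Set

/-- the supremum of the heights -/
theorem exists_sup (g : ℕ → Om) : ∃ γ : Om, (∀ k, g k ≤ γ) ∧ ∀ β, β < γ → ∃ k, β < g k := by
  have h : (⨆ k, ((g k : Om) : Ordinal.{0})) < Ordinal.omega 1 :=
    Ordinal.iSup_lt_omega_one fun k => (g k).2
  refine ⟨⟨⨆ k, ((g k : Om) : Ordinal.{0}), h⟩, fun k => ?_, fun β hβ => ?_⟩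
  · exact Ordinal.le_iSup (fun k => ((g k : Om) : Ordinal.{0})) k
  · have h2 : (β : Ordinal.{0}) < ⨆ k, ((g k : Om) : Ordinal.{0}) := hβ
    rw [Ordinal.lt_iSup_iff] at h2
    exact h2

theorem desc_le {p : ℕ → Cond} (hp : Desc p) {i j : ℕ} (h : i ≤ j) : p j ≤ p i := by
  induction j, h using Nat.le_induction with
  | base => exact le_rfl
  | succ n _ ih => exact (hp n).trans ih

theorem mem_S_of_le {p q : Cond} (h : q ≤ p) {s : Set Om} (hs : s ∈ q.S) : s ∩ Iio p.g ∈ p.S := by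
  rw [← h.2.1]
  exact ⟨s, hs, rfl⟩

theorem exists_over {p q : Cond} (h : q ≤ p) {s : Set Om} (hs : s ∈ p.S) :
    ∃ t ∈ q.S, t ∩ Iio p.g = s := by
  have h2 := h.2.1
  rw [← h2] at hs
  obtain ⟨t, ht, hts⟩ := hs
  exact ⟨t, ht, hts⟩

/-- the union of a coherent sequence -/
theorem union_inter (g : ℕ → Om) (f : ℕ → Set Om) (hg : Monotone g)
    (h : ∀ i, f (i + 1) ∩ Iio (g i) = f i) (hf : ∀ i, f i ⊆ Iio (g i)) (i : ℕ) :
    (⋃ j, f j) ∩ Iio (g i) = f i := by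
  have key : ∀ m, f (i + m) ∩ Iio (g i) = f i := by
    intro m
    induction m with
    | zero => exact inter_eq_left.2 (hf i)
    | succ m ih =>
      rw [← ih, ← add_assoc, ← h (i + m)]
      exact (inter_inter_Iio (hg (Nat.le_add_right i m)) _).symm
  have mono : ∀ a b, a ≤ b → f a ⊆ f b := by
    intro a b hab
    induction b, hab using Nat.le_induction with
    | base => exact subset_rfl
    | succ n _ ih =>
      refine ih.trans ?_
      rw [← h n]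
      exact inter_subset_left
  ext x
  constructor
  · rintro ⟨hx, hxi⟩
    obtain ⟨j, hj⟩ := mem_iUnion.1 hx
    have hj2 : x ∈ f (i + j) := mono j (i + j) (Nat.le_add_left j i) hj
    rw [← key j]
    exact ⟨hj2, hxi⟩
  · intro hx
    exact ⟨mem_iUnion.2 ⟨i, hx⟩, hf i hx⟩

/-- threads -/
def Thr (p : ℕ → Cond) (γ : Om) (t : Set Om) : Prop :=
  t ⊆ Iio γ ∧ ∀ k, t ∩ Iio (p k).g ∈ (p k).S

theorem Thr.of_ge {p : ℕ → Cond} (hp : Desc p) {γ : Om} {t : Set Om} {k : ℕ} (h1 : t ⊆ Iio γ)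
    (h : ∀ j, k ≤ j → t ∩ Iio (p j).g ∈ (p j).S) : Thr p γ t := by
  refine ⟨h1, fun j => ?_⟩
  rcases le_total k j with hj | hj
  · exact h j hj
  · have h2 := mem_S_of_le (desc_le hp hj) (h k le_rfl)
    rwa [inter_inter_Iio (desc_le hp hj).1] at h2

/-- a thread through a node -/
theorem exists_thr {p : ℕ → Cond} (hp : Desc p) {γ : Om} (hγ : ∀ k, (p k).g ≤ γ) {k : ℕ}
    {s : Set Om} (hs : s ∈ (p k).S) : ∃ t, Thr p γ t ∧ t ∩ Iio (p k).g = s := by
  have step : ∀ (i : ℕ) (u : {u : Set Om // u ∈ (p (k + i)).S}),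
      ∃ t : {u : Set Om // u ∈ (p (k + (i + 1))).S}, (t : Set Om) ∩ Iio (p (k + i)).g = u := by
    rintro i ⟨u, hu⟩
    obtain ⟨t, ht, htu⟩ := exists_over (hp (k + i)) hu
    exact ⟨⟨t, ht⟩, htu⟩
  choose nx hnx using step
  let f : (i : ℕ) → {u : Set Om // u ∈ (p (k + i)).S} :=
    fun i => Nat.rec (motive := fun i => {u : Set Om // u ∈ (p (k + i)).S}) ⟨s, hs⟩
      (fun i u => nx i u) i
  have hf : ∀ i, ((f (i + 1) : Set Om)) ∩ Iio (p (k + i)).g = f i := fun i => hnx i (f i)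
  have hu := union_inter (fun i => (p (k + i)).g) (fun i => (f i : Set Om))
    (fun i j hij => (desc_le hp (by omega : k + i ≤ k + j)).1) hf
    (fun i => (p (k + i)).S_sub _ (f i).2)
  refine ⟨⋃ i, (f i : Set Om), Thr.of_ge hp (k := k) ?_ ?_, ?_⟩
  · intro x hx
    obtain ⟨i, hi⟩ := mem_iUnion.1 hx
    exact lt_of_lt_of_le ((p (k + i)).S_sub _ (f i).2 hi) (hγ _)
  · intro j hj
    obtain ⟨m, rfl⟩ := Nat.exists_eq_add_of_le hj
    rw [hu m]
    exact (f m).2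
  · exact hu 0

/-- the thread of a row -/
theorem exists_row {p : ℕ → Cond} (hp : Desc p) {γ : Om} (hγ : ∀ k, (p k).g ≤ γ) {k : ℕ}
    {ξ : Kap} {s : Set Om} (hs : (p k).v (.row ξ) = some (.nd s)) :
    ∃ t, Thr p γ t ∧ ∀ j, k ≤ j → (p j).v (.row ξ) = some (.nd (t ∩ Iio (p j).g)) := by
  have h1 : ∀ i, ∃ u, (p (k + i)).v (.row ξ) = some (.nd u) := by
    intro i
    obtain ⟨y, hy, hy2⟩ := (desc_le hp (Nat.le_add_right k i)).2.2 _ _ hs
    cases y with
    | nd u => exact ⟨u, hy⟩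
    | od η => exact absurd hy2 (by simp [Val.res])
  choose f hf using h1
  have hS : ∀ i, f i ∈ (p (k + i)).S := fun i => (p (k + i)).v_ok _ _ (hf i)
  have hstep : ∀ i, f (i + 1) ∩ Iio (p (k + i)).g = f i := by
    intro i
    obtain ⟨y, hy, hy2⟩ := (hp (k + i)).2.2 _ _ (hf i)
    have h3 := hf (i + 1)
    rw [← add_assoc, hy] at h3
    have h4 : y = Val.nd (f (i + 1)) := Option.some.inj h3
    rw [h4] at hy2
    exact Val.nd.inj hy2
  have hu := union_inter (fun i => (p (k + i)).g) f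
    (fun i j hij => (desc_le hp (by omega : k + i ≤ k + j)).1) hstep
    (fun i => (p (k + i)).S_sub _ (hS i))
  refine ⟨⋃ i, f i, Thr.of_ge hp (k := k) ?_ ?_, ?_⟩
  · intro x hx
    obtain ⟨i, hi⟩ := mem_iUnion.1 hx
    exact lt_of_lt_of_le ((p (k + i)).S_sub _ (hS i) hi) (hγ _)
  · intro j hj
    obtain ⟨m, rfl⟩ := Nat.exists_eq_add_of_le hj
    rw [hu m]
    exact hS m
  · intro j hj
    obtain ⟨m, rfl⟩ := Nat.exists_eq_add_of_le hj
    rw [hu m]
    exact hf m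

theorem row_countable (p : Cond) : Countable {ξ : Kap // ∃ s, p.v (.row ξ) = some (.nd s)} := by
  have h1 : Countable p.supp := p.v_ct.to_subtype
  have h2 : Function.Injective (fun x : {ξ : Kap // ∃ s, p.v (.row ξ) = some (.nd s)} =>
      (⟨Coord.row x.1, by
        obtain ⟨s, hs⟩ := x.2
        show p.v (Coord.row x.1) ≠ none
        rw [hs]; simp⟩ : p.supp)) := by
    intro x y hxy
    have h3 : Coord.row x.1 = Coord.row y.1 := congrArg Subtype.val hxy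
    exact Subtype.ext (Coord.row.inj h3)
  exact h2.countable

/-- the limit with all branches satisfying `Q` -/
theorem main (hL : G_LIM) {p : ℕ → Cond} (hp : Desc p) {γ : Om} (hγ : ∀ k, (p k).g ≤ γ)
    (hγ2 : ∀ β, β < γ → ∃ k, β < (p k).g) (Q : Set Om → Prop)
    (h1 : ∀ k s, s ∈ (p k).S → ∃ t, Thr p γ t ∧ t ∩ Iio (p k).g = s ∧ Q t)
    (h2 : ∀ k ξ, (∃ s, (p k).v (.row ξ) = some (.nd s)) →
      ∃ t, Thr p γ t ∧ (∀ j, k ≤ j → (p j).v (.row ξ) = some (.nd (t ∩ Iio (p j).g))) ∧ Q t) :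
    ∃ q : Cond, q.g = γ ∧ (∀ k, q ≤ p k) ∧ ∀ t ∈ q.S, Q t := by
  choose T hT1 hT2 hT3 using h1
  choose R hR1 hR2 hR3 using h2
  let B : Set (Set Om) := (⋃ k, range (fun x : (p k).S => T k x.1 x.2)) ∪
    ⋃ k, range (fun x : {ξ : Kap // ∃ s, (p k).v (.row ξ) = some (.nd s)} => R k x.1 x.2)
  have hBt : ∀ t ∈ B, Thr p γ t ∧ Q t := by
    rintro t (ht | ht)
    · obtain ⟨k, x, rfl⟩ := mem_iUnion.1 ht
      exact ⟨hT1 _ _ _, hT3 _ _ _⟩
    · obtain ⟨k, x, rfl⟩ := mem_iUnion.1 ht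
      exact ⟨hR1 _ _ _, hR3 _ _ _⟩
  have hBc : B.Countable := by
    apply Countable.union
    · apply countable_iUnion
      intro k
      have := (p k).S_ct.to_subtype
      exact countable_range _
    · apply countable_iUnion
      intro k
      have := row_countable (p k)
      exact countable_range _
  obtain ⟨q, hq1, hq2, hq3, -⟩ := hL p γ B hp hγ hγ2 hBc (fun t ht => (hBt t ht).1)
    (fun k s hs => ⟨T k s hs, Or.inl (mem_iUnion.2 ⟨k, ⟨s, hs⟩, rfl⟩), hT2 k s hs⟩)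
    (fun ξ k s hs => ⟨R k ξ ⟨s, hs⟩, Or.inr (mem_iUnion.2 ⟨k, ⟨ξ, s, hs⟩, rfl⟩),
      hR2 k ξ ⟨s, hs⟩⟩)
  exact ⟨q, hq1, hq3, fun t ht => (hBt t (by rwa [← hq2])).2⟩

theorem sigc : G_LIM → G_SIGC := by
  intro hL p hp
  obtain ⟨γ, hγ, hγ2⟩ := exists_sup (fun k => (p k).g)
  obtain ⟨q, -, hq, -⟩ := main hL hp hγ hγ2 (fun _ => True)
    (fun k s hs => by
      obtain ⟨t, ht, hts⟩ := exists_thr hp hγ hs
      exact ⟨t, ht, hts, trivial⟩)
    (fun k ξ ⟨s, hs⟩ => by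
      obtain ⟨t, ht, hts⟩ := exists_row hp hγ hs
      exact ⟨t, ht, hts, trivial⟩)
  exact ⟨q, hq⟩

theorem sigx : G_LIM → G_SIGX := by
  intro hL p a hp hlt hrow
  obtain ⟨γ, hγ, hγ2⟩ := exists_sup (fun k => (p k).g)
  have hcut : ∀ j, (a ∩ Iio γ) ∩ Iio (p j).g = a ∩ Iio (p j).g := fun j =>
    inter_inter_Iio (hγ j) a
  obtain ⟨q, hqg, hq, hqS⟩ := main hL hp hγ hγ2 (fun t => t ≠ a ∩ Iio γ)
    (fun k s hs => by
      by_cases h : s = a ∩ Iio (p k).g
      · obtain ⟨s1, hs1, hs1k⟩ := exists_over (hp k) hs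
        by_cases h1 : s1 = a ∩ Iio (p (k + 1)).g
        · obtain ⟨s2, hs2, hs2k, hne⟩ := (p (k + 1)).S_spl s1 hs1 (p k).g (hlt k)
          obtain ⟨t, ht, hts⟩ := exists_thr hp hγ hs2
          refine ⟨t, ht, ?_, fun hta => ?_⟩
          · rw [← inter_inter_Iio (hp k).1 t, hts, hs2k, hs1k]
          · rw [hta, hcut, ← h1] at hts
            rw [hts] at hne
            exact hne Iff.rfl
        · obtain ⟨t, ht, hts⟩ := exists_thr hp hγ hs1
          refine ⟨t, ht, ?_, fun hta => ?_⟩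
          · rw [← inter_inter_Iio (hp k).1 t, hts, hs1k]
          · rw [hta, hcut] at hts
            exact h1 hts.symm
      · obtain ⟨t, ht, hts⟩ := exists_thr hp hγ hs
        refine ⟨t, ht, hts, fun hta => ?_⟩
        rw [hta, hcut] at hts
        exact h hts.symm)
    (fun k ξ ⟨s, hs⟩ => by
      obtain ⟨t, ht, hts⟩ := exists_row hp hγ hs
      refine ⟨t, ht, hts, fun hta => ?_⟩
      obtain ⟨j, hj, hne⟩ := hrow ξ k s hs
      apply hne
      rw [hts j hj, hta, hcut])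
  refine ⟨q, hq, ?_, ?_⟩
  · rw [hqg]; exact hγ2
  · rw [hqg]
    intro hmem
    exact hqS _ hmem rfl

end Pool.Agent.Helper97.Ku.PkSIG
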