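import Pool.Agent.Helper97.Ku.GoalsD

/-! Packet TT: the code of the generic tree is a regular tree. -/

namespace Pool.Agent.Helper97.Ku.PkTT

open Set

theorem mem_bo {P : Prop} {p : Cond} : p ∈ (bo P : BA) ↔ P := by
  by_cases h : P
  · rw [bo_true h]
    exact ⟨fun _ => h, fun _ => RO.mem_top p⟩
  · rw [bo_false h]
    exact ⟨fun hp => absurd hp (RO.not_mem_bot p), fun hP => absurd hP h⟩

theorem exists_gt' (γ : Om) : ∃ γ' : Om, γ < γ' := by
  have h : Order.IsSuccLimit (Ordinal.omega 1 : Ordinal.{0}) := Cardinal.isSuccLimit_omega 1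
  refine ⟨⟨Order.succ (γ : Ordinal.{0}), h.succ_lt γ.2⟩, ?_⟩
  exact Order.lt_succ (γ : Ordinal.{0})

theorem exists_min_gt (γ : Om) : ∃ γ' : Om, γ < γ' ∧ ∀ δ, γ < δ → γ' ≤ δ := by
  obtain ⟨γ1, h1⟩ := exists_gt' γ
  have hw : WellFounded ((· < ·) : Om → Om → Prop) := wellFounded_lt
  refine ⟨hw.min {δ | γ < δ} ⟨γ1, h1⟩, hw.min_mem {δ | γ < δ} ⟨γ1, h1⟩, fun δ hδ => ?_⟩
  exact not_lt.1 (hw.not_lt_min {δ | γ < δ} hδ)

theorem mem_iSup_of {ι : Sort*} {a : ι → BA} {p : Cond} (i : ι) (h : p ∈ a i) : p ∈ ⨆ i, a i :=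
  le_iSup a i p h

theorem mem_sup_left {a b : BA} {p : Cond} (h : p ∈ a) : p ∈ a ⊔ b :=
  (le_sup_left : a ≤ a ⊔ b) p h

theorem mem_sup_right {a b : BA} {p : Cond} (h : p ∈ b) : p ∈ a ⊔ b :=
  (le_sup_right : b ≤ a ⊔ b) p h

theorem dn (hL : G_LIFT) (δ : Om) {b : BA} {p : Cond} (h : ∀ r, r ≤ p → δ ≤ r.g → r ∈ b) :
    p ∈ b := by
  apply RO.dense
  intro q hq
  obtain ⟨r, hr, hg, -⟩ := hL q (max q.g δ) (le_max_left _ _)
  exact ⟨r, hr, h r (hr.trans hq) (by rw [hg]; exact le_max_right _ _)⟩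

theorem dnh (hL : G_LIFT) (δ : Om) {a b : BA} {p : Cond}
    (h : ∀ r, r ≤ p → δ ≤ r.g → r ∈ a → r ∈ b) : p ∈ a ⇨ b := by
  rw [RO.mem_himp]
  intro q hq hqa
  exact dn hL δ fun r hr hg => h r (hr.trans hq) hg (RO.lower hr hqa)

variable {G : Grd Om} (t : TD G)

/-- the level of a node -/
def L (i : Om) : Om := t.lam (t.z i).1

/-- the criterion -/
def C (p : Cond) (i j : Om) : Prop :=
  (t.z i).1 < (t.z j).1 ∧ t.node p i = t.node p j ∩ Iio (L t i)

theorem L_lt {i j : Om} (h : (t.z i).1 < (t.z j).1) : L t i < L t j := t.lam_mono h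

theorem z2 (i : Om) : (t.z i).2 < G.w0 := by
  rcases (t.z_ran (t.z i)).1 ⟨i, rfl⟩ with h | h
  · rw [h]; exact G.w0_pos
  · exact h.2

theorem z0 {i : Om} (h : (t.z i).1 = G.c0) : t.z i = (G.c0, G.c0) := by
  rcases (t.z_ran (t.z i)).1 ⟨i, rfl⟩ with h1 | h1
  · exact h1
  · rw [h] at h1
    exact absurd h1.1 (lt_irrefl _)

theorem node_le (hR : G_ROW) {p q : Cond} (hq : q ≤ p) {i : Om} (hi : L t i ≤ p.g) :
    t.node q i = t.node p i := by
  unfold TD.node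
  unfold L at hi
  rw [(hR G p).2.2.1 q _ hq hi]

theorem node_mem (hE : G_ENS) (hR : G_ROW) (p : Cond) (i : Om) :
    ∃ s ∈ p.S, t.node p i = s ∩ Iio (L t i) := by
  have h1 := (hR G p).1 (L t i)
  have h2 := (hE G _ h1.1 h1.2).1 (t.z i).2 (z2 t i)
  obtain ⟨s, hs, hs2⟩ := h2
  exact ⟨s, hs, hs2.symm⟩

theorem C_le (hR : G_ROW) {p q : Cond} (hq : q ≤ p) {i j : Om} (hj : L t j ≤ p.g) :
    C t q i j ↔ C t p i j := by
  unfold C
  constructor
  · rintro ⟨h1, h2⟩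
    refine ⟨h1, ?_⟩
    rw [node_le t hR hq hj, node_le t hR hq ((L_lt t h1).le.trans hj)] at h2
    exact h2
  · rintro ⟨h1, h2⟩
    refine ⟨h1, ?_⟩
    rw [node_le t hR hq hj, node_le t hR hq ((L_lt t h1).le.trans hj)]
    exact h2

theorem rel_iff (hR : G_ROW) {p : Cond} {i j : Om} (hj : L t j ≤ p.g) :
    p ∈ t.rel i j ↔ C t p i j := by
  unfold TD.rel
  rw [RO.mem_cl]
  constructor
  · intro h
    obtain ⟨r, hr, -, hC⟩ := h p le_rfl
    exact (C_le t hR hr hj).1 hC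
  · intro h q hq
    exact ⟨q, le_rfl, hj.trans hq.1, (C_le t hR hq hj).2 h⟩

theorem rel_lt {p : Cond} {i j : Om} (h : p ∈ t.rel i j) : (t.z i).1 < (t.z j).1 := by
  obtain ⟨r, -, -, hC, -⟩ := RO.mem_cl.1 h p le_rfl
  exact hC

theorem c0_ne_c1 (G : Grd Om) : G.c0 ≠ G.c1 := ((G.lt_c1 G.c0).2 rfl).ne

theorem x_c1 (m : Om) : (t.x).v m G.c1 = t.rel (G.pi.symm m).1 (G.pi.symm m).2 := by
  show (bo (G.c1 = G.c1) ⊓ _) ⊔ (bo (G.c1 = G.c0) ⊓ _) = _
  rw [bo_true rfl, bo_false (c0_ne_c1 G).symm, top_inf_eq, bot_inf_eq, sup_bot_eq]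

theorem x_c0 (m : Om) : (t.x).v m G.c0 = (t.rel (G.pi.symm m).1 (G.pi.symm m).2)ᶜ := by
  show (bo (G.c0 = G.c1) ⊓ _) ⊔ (bo (G.c0 = G.c0) ⊓ _) = _
  rw [bo_false (c0_ne_c1 G), bo_true (P := G.c0 = G.c0) rfl, top_inf_eq, bot_inf_eq, bot_sup_eq]

theorem Rv_eq (i j : Om) : Rv G t.x i j = t.rel i j := by
  unfold Rv
  rw [x_c1, Equiv.symm_apply_apply]

theorem infinite_Iio_w0 (G : Grd Om) : (Iio G.w0).Infinite := by
  have : Nonempty (Iio G.w0) := ⟨⟨G.c0, G.w0_pos⟩⟩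
  have : NoMaxOrder (Iio G.w0) := ⟨fun a => by
    obtain ⟨j, hj, hj2⟩ := G.w0_lim a.1 a.2
    exact ⟨⟨j, hj2⟩, hj⟩⟩
  exact Set.infinite_coe_iff.1 inferInstance

theorem lev_infinite (r : Cond) {γ : Om} (h1 : G.w0 ≤ γ) (h2 : γ ≤ r.g) :
    (lev r γ).Infinite := by
  obtain ⟨s0, hs0⟩ := r.S_ne
  have key : ∀ n : Om, n < G.w0 → ∃ s ∈ r.S, s ∩ Iio n = s0 ∩ Iio n ∧ ¬ (n ∈ s ↔ n ∈ s0) :=
    fun n hn => r.S_spl s0 hs0 n (hn.trans_le (h1.trans h2))
  choose! f hf1 hf2 hf3 using key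
  have hlt : ∀ n m, n < m → m < G.w0 → f n ∩ Iio γ ≠ f m ∩ Iio γ := by
    intro n m hnm hm h
    have hn : n < G.w0 := hnm.trans hm
    have h3 : n ∈ f m ↔ n ∈ s0 := by
      have := Set.ext_iff.1 (hf2 m hm) n
      simp only [mem_inter_iff, mem_Iio, hnm, and_true] at this
      exact this
    have h4 : n ∈ f n ↔ n ∈ f m := by
      have := Set.ext_iff.1 h n
      have hnγ : n < γ := hn.trans_le h1
      simp only [mem_inter_iff, mem_Iio, hnγ, and_true] at this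
      exact this
    exact hf3 n hn (h4.trans h3)
  apply Set.infinite_of_injOn_mapsTo (f := fun n => f n ∩ Iio γ) (s := Iio G.w0)
  · intro n hn m hm h
    rcases lt_trichotomy n m with h3 | h3 | h3
    · exact absurd h (hlt n m h3 hm)
    · exact h3
    · exact absurd h.symm (hlt m n h3 hn)
  · intro n hn
    exact ⟨f n, hf1 n hn, rfl⟩
  · exact infinite_Iio_w0 G

theorem exists_node (hE : G_ENS) (hR : G_ROW) (r : Cond) {β : Om} (hβ : G.c0 < β) {s : Set Om}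
    (hs : s ∈ r.S) : ∃ j, (t.z j).1 = β ∧ t.node r j = s ∩ Iio (t.lam β) := by
  have h1 := (hR G r).1 (t.lam β)
  obtain ⟨k, hk, hk2⟩ := (hE G _ h1.1 h1.2).2.1 (s ∩ Iio (t.lam β)) ⟨s, hs, rfl⟩
  obtain ⟨j, hj⟩ := (t.z_ran (β, k)).2 (Or.inr ⟨hβ, hk⟩)
  refine ⟨j, by rw [hj], ?_⟩
  unfold TD.node
  rw [hj]
  exact hk2

theorem node_root (hE : G_ENS) (hR : G_ROW) (r : Cond) {j : Om} (hj : (t.z j).1 = G.c0) :
    t.node r j = ∅ := by
  obtain ⟨s, -, hs⟩ := node_mem t hE hR r j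
  rw [hs]
  unfold L
  rw [hj, t.lam_zero]
  ext x
  simp only [mem_inter_iff, mem_Iio, mem_empty_iff_false, iff_false, not_and, not_lt]
  intro _
  exact G.c0_le x

theorem inter_Iio_c0 (s : Set Om) : s ∩ Iio (t.lam G.c0) = ∅ := by
  rw [t.lam_zero]
  ext x
  simp only [mem_inter_iff, mem_Iio, mem_empty_iff_false, iff_false, not_and, not_lt]
  intro _
  exact G.c0_le x

theorem node_inj (hE : G_ENS) (hR : G_ROW) (r : Cond) {i j : Om} (hi : L t i ≤ r.g)
    (h : (t.z i).1 = (t.z j).1) (hn : t.node r i = t.node r j) : i = j := by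
  apply t.z_inj
  by_cases h0 : (t.z i).1 = G.c0
  · rw [z0 t h0, z0 t (h ▸ h0)]
  · have h1 : G.c0 < (t.z i).1 := lt_of_le_of_ne (G.c0_le _) (Ne.symm h0)
    have h2 := (hR G r).1 (L t i)
    have h3 := (hE G _ h2.1 h2.2).2.2 (lev_infinite r (t.lam_inf _ h1) hi) (t.z i).2 (t.z j).2
      (z2 t i) (z2 t j)
    have h4 : (t.z i).2 = (t.z j).2 := by
      apply h3
      unfold TD.node at hn
      rw [← h] at hn
      exact hn
    exact Prod.ext h h4

end Pool.Agent.Helper97.Ku.PkTT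

namespace Pool.Agent.Helper97.Ku.PkTT

open Set

theorem tt : G_ENS → G_LIFT → G_ROW → G_TT := by
  intro hE hL hR G t p
  refine ⟨?_, ?_, ?_, ?_, ?_, ?_, ?_, ?_, ?_, ?_⟩
  · intro k
    rw [x_c0, x_c1, sup_comm, sup_compl_eq_top]
    exact RO.mem_top p
  · intro i
    rw [Rv_eq, RO.mem_compl]
    intro q _ hq
    exact lt_irrefl _ (rel_lt t hq)
  · intro i j k
    rw [Rv_eq, Rv_eq, Rv_eq]
    apply dnh hL (max (L t j) (L t k))
    rintro r - hg ⟨h1, h2⟩
    have hj : L t j ≤ r.g := (le_max_left _ _).trans hg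
    have hk : L t k ≤ r.g := (le_max_right _ _).trans hg
    change r ∈ t.rel i j at h1
    change r ∈ t.rel j k at h2
    rw [rel_iff t hR hj] at h1
    rw [rel_iff t hR hk] at h2
    rw [rel_iff t hR hk]
    refine ⟨h1.1.trans h2.1, ?_⟩
    rw [h1.2, h2.2]
    exact inter_inter_Iio (L_lt t h1.1).le _
  · intro i j k
    rw [Rv_eq, Rv_eq, Rv_eq, Rv_eq]
    apply dnh hL (max (L t k) (max (L t i) (L t j)))
    rintro r - hg ⟨h1, h2⟩
    have hk : L t k ≤ r.g := (le_max_left _ _).trans hg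
    have hi : L t i ≤ r.g := ((le_max_left _ _).trans (le_max_right _ _)).trans hg
    have hj : L t j ≤ r.g := ((le_max_right _ _).trans (le_max_right _ _)).trans hg
    change r ∈ t.rel i k at h1
    change r ∈ t.rel j k at h2
    rw [rel_iff t hR hk] at h1 h2
    rcases lt_trichotomy (t.z i).1 (t.z j).1 with h | h | h
    · apply mem_sup_left
      rw [rel_iff t hR hj]
      refine ⟨h, ?_⟩
      rw [h1.2, h2.2]
      exact (inter_inter_Iio (L_lt t h).le _).symm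
    · apply mem_sup_right
      apply mem_sup_left
      rw [mem_bo]
      apply node_inj t hE hR r hi h
      rw [h1.2, h2.2]
      unfold L
      rw [h]
    · apply mem_sup_right
      apply mem_sup_right
      rw [rel_iff t hR hi]
      refine ⟨h, ?_⟩
      rw [h1.2, h2.2]
      exact (inter_inter_Iio (L_lt t h).le _).symm
  · intro i j α β
    rw [Rv_eq, RO.mem_himp]
    rintro q - ⟨h1, h2, h3⟩
    change q ∈ t.rel i j at h1
    have h2' : q ∈ (bo (α = (t.z i).1) : BA) := h2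
    have h3' : q ∈ (bo (β = (t.z j).1) : BA) := h3
    rw [mem_bo] at h2' h3' ⊢
    rw [h2', h3']
    exact rel_lt t h1
  · intro j α β hαβ
    apply dnh hL (L t j)
    intro r _ hg hr
    have h3' : r ∈ (bo (β = (t.z j).1) : BA) := hr
    rw [mem_bo] at h3'
    obtain ⟨s, hs, hsj⟩ := node_mem t hE hR r j
    have hα : α < (t.z j).1 := h3' ▸ hαβ
    have hlam : t.lam α < L t j := t.lam_mono hα
    obtain ⟨i, hi1, hi2⟩ : ∃ i, (t.z i).1 = α ∧ t.node r i = t.node r j ∩ Iio (t.lam α) := by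
      by_cases h0 : α = G.c0
      · obtain ⟨i, hi⟩ := (t.z_ran (G.c0, G.c0)).2 (Or.inl rfl)
        refine ⟨i, by rw [hi, h0], ?_⟩
        rw [node_root t hE hR r (by rw [hi]), h0, inter_Iio_c0]
      · obtain ⟨i, hi1, hi2⟩ := exists_node t hE hR r
          (lt_of_le_of_ne (G.c0_le α) (Ne.symm h0)) hs
        refine ⟨i, hi1, ?_⟩
        rw [hi2, hsj]
        exact (inter_inter_Iio hlam.le s).symm
    apply mem_iSup_of i
    refine ⟨?_, ?_⟩
    · change r ∈ Rv G t.x i j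
      rw [Rv_eq, rel_iff t hR hg]
      refine ⟨by rw [hi1]; exact hα, ?_⟩
      rw [hi2]
      unfold L
      rw [hi1]
    · change r ∈ (bo (α = (t.z i).1) : BA)
      rw [mem_bo, hi1]
  · obtain ⟨i, hi⟩ := (t.z_ran (G.c0, G.c0)).2 (Or.inl rfl)
    apply mem_iSup_of i
    refine ⟨?_, ?_⟩
    · change p ∈ (bo (G.c0 = (t.z i).1) : BA)
      rw [mem_bo, hi]
    · change p ∈ ⨅ i', ((gfn fun i => (t.z i).1).v i' G.c0 ⇨ bo (i' = i))
      rw [RO.mem_iInf]
      intro i'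
      rw [RO.mem_himp]
      intro q _ hq
      have hq' : q ∈ (bo (G.c0 = (t.z i').1) : BA) := hq
      rw [mem_bo] at hq' ⊢
      apply t.z_inj
      rw [z0 t hq'.symm, hi]
  · intro i
    obtain ⟨γ', hγ1, hγ2⟩ := exists_min_gt (t.z i).1
    apply dn hL (t.lam γ')
    intro r _ hg
    obtain ⟨s, hs, hsi⟩ := node_mem t hE hR r i
    have hlam : L t i < t.lam γ' := t.lam_mono hγ1
    obtain ⟨s', hs', hss, hne⟩ := r.S_spl s hs (L t i) (hlam.trans_le hg)
    have hc : G.c0 < γ' := lt_of_le_of_lt (G.c0_le _) hγ1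
    obtain ⟨j, hj1, hj2⟩ := exists_node t hE hR r hc hs
    obtain ⟨j', hj1', hj2'⟩ := exists_node t hE hR r hc hs'
    have hLj : L t j ≤ r.g := by unfold L; rw [hj1]; exact hg
    have hLj' : L t j' ≤ r.g := by unfold L; rw [hj1']; exact hg
    have hjj : j ≠ j' := by
      rintro rfl
      rw [hj2] at hj2'
      have := Set.ext_iff.1 hj2' (L t i)
      simp only [mem_inter_iff, mem_Iio, hlam, and_true] at this
      exact hne this.symm
    apply mem_iSup_of j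
    apply mem_iSup_of j'
    refine ⟨?_, ?_, ?_, ?_⟩
    · change r ∈ (bo (j ≠ j') : BA)
      rw [mem_bo]; exact hjj
    · change r ∈ Rv G t.x i j
      rw [Rv_eq, rel_iff t hR hLj]
      refine ⟨by rw [hj1]; exact hγ1, ?_⟩
      rw [hsi, hj2]
      exact (inter_inter_Iio hlam.le s).symm
    · change r ∈ Rv G t.x i j'
      rw [Rv_eq, rel_iff t hR hLj']
      refine ⟨by rw [hj1']; exact hγ1, ?_⟩
      rw [hsi, hj2', ← hss]
      exact (inter_inter_Iio hlam.le s').symm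
    · change r ∈ ⨅ k, ((Rv G t.x i k ⊓ Rv G t.x k j)ᶜ ⊓ (Rv G t.x i k ⊓ Rv G t.x k j')ᶜ)
      rw [RO.mem_iInf]
      intro k
      rw [RO.mem_inf, RO.mem_compl, RO.mem_compl, Rv_eq, Rv_eq, Rv_eq]
      constructor
      · rintro q - ⟨h1, h2⟩
        have h3 := rel_lt t h1
        have h4 := rel_lt t h2
        rw [hj1] at h4
        exact absurd h4 (not_lt.2 (hγ2 _ h3))
      · rintro q - ⟨h1, h2⟩
        have h3 := rel_lt t h1
        have h4 := rel_lt t h2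
        rw [hj1'] at h4
        exact absurd h4 (not_lt.2 (hγ2 _ h3))
  · intro i α β hαβ
    apply dnh hL (t.lam β)
    intro r _ hg hr
    have h3' : r ∈ (bo (α = (t.z i).1) : BA) := hr
    rw [mem_bo] at h3'
    obtain ⟨s, hs, hsi⟩ := node_mem t hE hR r i
    have hγ : (t.z i).1 < β := h3' ▸ hαβ
    have hlam : L t i < t.lam β := t.lam_mono hγ
    obtain ⟨j, hj1, hj2⟩ := exists_node t hE hR r (lt_of_le_of_lt (G.c0_le _) hαβ) hs
    have hLj : L t j ≤ r.g := by unfold L; rw [hj1]; exact hg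
    apply mem_iSup_of j
    refine ⟨?_, ?_⟩
    · change r ∈ Rv G t.x i j
      rw [Rv_eq, rel_iff t hR hLj]
      refine ⟨by rw [hj1]; exact hγ, ?_⟩
      rw [hsi, hj2]
      exact (inter_inter_Iio hlam.le s).symm
    · change r ∈ (bo (β = (t.z j).1) : BA)
      rw [mem_bo, hj1]
  · classical
    intro α
    apply mem_iSup_of (gfn fun n => if h : (α, n) ∈ range t.z then h.choose else G.c0)
    rw [RO.mem_iInf]
    intro j
    rw [RO.mem_himp]
    intro q _ hq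
    have hq' : q ∈ (bo (α = (t.z j).1) : BA) := hq
    rw [mem_bo] at hq'
    apply mem_iSup_of (t.z j).2
    refine ⟨?_, ?_⟩
    · change q ∈ (bo ((t.z j).2 < G.w0) : BA)
      rw [mem_bo]; exact z2 t j
    · change q ∈ (bo (j = (if h : (α, (t.z j).2) ∈ range t.z then h.choose else G.c0)) : BA)
      rw [mem_bo]
      have h : (α, (t.z j).2) ∈ range t.z := ⟨j, by rw [hq']⟩
      rw [dif_pos h]
      apply t.z_inj
      rw [h.choose_spec, hq']

end Pool.Agent.Helper97.Ku.PkTT
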